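import Pool.Agent.Q50.TB.Mfin

/-!
# The strong Tate conjecture for all powers of a variety: from one prime to all primes

Let `X` be a smooth projective variety over a number field. Suppose that for one prime `ℓ₀` the
Tate conjecture holds for all powers of `X` and the action of the Galois group on their cohomology
is semisimple. Then for every prime `ℓ` the action on the `ℓ`-adic cohomology of all powers of `X`
is semisimple. If the `ℓ₀`-adic Lie algebra is of type `A`, then for every prime `ℓ` the Tate
conjecture holds for all powers of `X`. Nothing is assumed about the `ℓ`-adic cohomology.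
-/

open CategoryTheory AlgebraicGeometry

universe u w

namespace Pool.Agent.Results.MP_021685_ag.OnePrimeDecidesTypeA

open Pool.Agent.H914
open Pool.Agent.Q55 (GaloisAction)
open Pool.Agent.Q60.TD (SemisimpleAt)
open Pool.Agent.Y133.Half (pw)
open Pool.Agent.Q50.MTC (IsLadic IsTate IsAlg)
open Pool.Agent.Q50.LI (Artin)
open Pool.Agent.Q50.TA (FrobeniusSet)
open Pool.Agent.Q50.TB (MaximalTori TypeA)

variable {k : Type u} [Field k] {𝒱 : VarClass k} {ops : CycleOps 𝒱}
  {W E₀ E : WeilCohomology.{u, 0} ops} [Algebra W.K E₀.K] [Algebra W.K E.K] [Algebra E₀.K ℂ]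
  [Algebra E.K ℂ] {Γ : Type w} [Group Γ] [TopologicalSpace Γ] {G₀ : GaloisAction E₀ Γ}
  {G : GaloisAction E Γ}

/-- **The strong Tate conjecture at one prime and at all primes.** Let `W` be the cohomology with
rational coefficients (`hrat`), let `E₀` be the `ℓ₀`-adic and `E` the `ℓ`-adic cohomology, with the
actions `G₀` and `G` of the Galois group `Γ`, and let `A₀` and `A` be Artin's comparison maps. Let
`X` be a variety such that the actions on the cohomology of its powers `X ^ (n + 1)` are `ℓ₀`-adic
and `ℓ`-adic (`hX₀`, `hX`), and suppose that there are sets of Frobenius elements (`hF`): this is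
the density theorem of Chebotarev, the trace formula, the theory of abelian `ℓ`-adic representations
for the determinants on the stable subspaces (Serre, Faltings), and Serre's theorem that for many
places the Zariski closure of the group generated by the Frobenius element is a maximal torus of the
`ℓ₀`-adic monodromy group. Suppose that the actions on the `ℓ₀`-adic cohomology of the powers of `X`
are semisimple (`hss₀`) and that all `ℓ₀`-adic Tate classes on them are algebraic (`hTC₀`). Then the
actions on the `ℓ`-adic cohomology of all powers of `X` are semisimple; and if the `ℓ₀`-adic Lie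
algebra of `X` is of type `A`, then all `ℓ`-adic Tate classes on all powers of `X` are
algebraic. -/
theorem result (hrat : ∀ r : W.K, ∃ q : ℚ, (q : W.K) = r) (A₀ : Artin W E₀) (A : Artin W E)
    {ℓ₀ ℓ : ℕ} [Fact ℓ₀.Prime] [Fact ℓ.Prime] (e₀ : E₀.K ≃+* ℚ_[ℓ₀]) (e : E.K ≃+* ℚ_[ℓ])
    (X : 𝒱.Obj) (hX₀ : ∀ n, IsLadic (G₀.ρ (pw X n)) G₀.χ e₀)
    (hX : ∀ n, IsLadic (G.ρ (pw X n)) G.χ e)
    (hF : ∀ n, ∃ Fr, FrobeniusSet G₀ G e₀ (pw X n) Fr ∧ MaximalTori G₀ G (pw X n) Fr)
    (hss₀ : ∀ n i, SemisimpleAt G₀ (pw X n) i)
    (hTC₀ : ∀ n j c, IsTate G₀ (pw X n) j c → IsAlg E₀ (pw X n) j c) :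
    (∀ n i, SemisimpleAt G (pw X n) i) ∧
      (TypeA G₀ X → ∀ n j c, IsTate G (pw X n) j c → IsAlg E (pw X n) j c) :=
  Pool.Agent.Q50.TB.main_typeA hrat A₀ A hX₀ hX hF hss₀ hTC₀

end Pool.Agent.Results.MP_021685_ag.OnePrimeDecidesTypeA
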