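import Pool.Agent.Q56.FR.Class

/-!
# The Tate conjecture for the products of an arbitrary variety with the powers of a variety

Let `X` be a smooth projective variety over the finite field with `q = p ^ a` elements, with total
Betti number at most `b` and dimension at most `d`, and let
`N = relBound b d e = ((2 b!)! + e + 1) (4 (d + 1) b!) ^ (2 ^ b)`. For EVERY smooth projective
variety `Z` of dimension at most `e` (its Betti numbers do not matter):

1. if the strong Tate conjecture holds for `Z × X ^ N` (the generalised eigenspace of the Frobenius
   endomorphism in `H^(2 j)` for the eigenvalue `q ^ j` is spanned by classes of cycles, for all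
   `j`), then it holds for `Z × X ^ n` for all `n`, and so does the Tate conjecture in its full form
   (the space of the classes of cycles with rational coefficients is finite-dimensional and its
   tensor product with the coefficient field maps isomorphically to the space of Tate classes);
2. if the Frobenius endomorphisms of `X` and `Z` act semisimply on the cohomology and all Tate
   classes on the single variety `Z × X ^ N` are algebraic, then the same full form holds for all
   `Z × X ^ n`.

Only Tate classes over the given finite field occur. `pw X n` is the product of `n + 1` copies of
`X`. Here `W` is a Weil cohomology theory with coefficients in an algebraically closed field (for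
example `l`-adic cohomology with coefficients in an algebraic closure of `ℚ_l`), `F` is the system of
the Frobenius endomorphisms, and `HasFrobPolys` says that the characteristic polynomials of the
Frobenius endomorphism have integral coefficients (Deligne), satisfy the Riemann hypothesis
(Deligne), and that the slopes times their multiplicities are integers (Katz-Messing,
Dieudonne-Manin), all of which are theorems for smooth projective varieties over finite fields.
-/

open CategoryTheory AlgebraicGeometry

universe u v

namespace Pool.Agent.Results.MP_021685_ag.RelativeDetermination

open Pool.Agent.H914 Pool.Agent.H914.VarClass Pool.Agent.H914.VarClass.Obj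
  Pool.Agent.H914.WeilCohomology Pool.Agent.W534 Pool.Agent.Y133.Half Pool.Agent.Q56.FD
  Pool.Agent.Q56.FE Pool.Agent.Q56.FR

/-- **The Tate conjecture for `Z × X ^ N`, with `N` explicit and independent of the Betti numbers of
`Z`, implies it for all `Z × X ^ n`.** -/
theorem result {k : Type u} [Field k] {𝒱 : VarClass k} {ops : CycleOps 𝒱}
    (W : WeilCohomology.{u, v} ops) [IsAlgClosed W.K] {p : ℕ} [Fact p.Prime] {a : ℕ} (ha : 0 < a)
    (F : FrobeniusOver W (p ^ a)) (b d e : ℕ) (X Z : 𝒱.Obj)
    (hb : Module.finrank W.K (W.H X) ≤ b) (hd : X.dim ≤ d) (he : Z.dim ≤ e)
    (hX : HasFrobPolys F X) (hZ : HasFrobPolys F Z) :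
    ((∀ j, StrongTate F (Z.prod (pw X (relBound b d e - 1))) j) →
      ∀ n j, StrongTate F (Z.prod (pw X n)) j ∧ FullTate F (Z.prod (pw X n)) j) ∧
    (IsSemisimpleOn F X → IsSemisimpleOn F Z →
      (∀ j, TateOnto F (Z.prod (pw X (relBound b d e - 1))) j) →
        ∀ n j, FullTate F (Z.prod (pw X n)) j) :=
  relative_main ha hb hd he hX hZ

end Pool.Agent.Results.MP_021685_ag.RelativeDetermination
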