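import Pool.Agent.Q43.TV.Fin
import Pool.Agent.Q43.FS.Ld
import Pool.Agent.Q43.RP.Low4
import Pool.Agent.TH776.FL.Main

/-!
# The Tate conjecture for products of an abelian variety with an arbitrary variety from one Frobenius torus of large rank

Let `A` be an abelian variety over a number field (or any finitely generated field of characteristic
zero), of any dimension and with arbitrary endomorphisms, and let `Z` be ANY smooth projective variety
over the same field. Let `v` be ONE place of good reduction for `A` and `Z`, with residue field of `q`
elements, let `P` be the characteristic polynomial of the Frobenius element on `H_1(A)` and let `Q` be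
its characteristic polynomial on the cohomology `H(Z)` (both have rational coefficients).

Suppose that `P` has no multiple roots, and that products `a b c d` of four roots of `P` are equal to
`q ^ 2` up to a root of unity only in the trivial way: the roots form two pairs of complex conjugates
(`OnlyTrivialRelationsOfLengthFour`). This holds for instance if the Frobenius torus of `A` at `v` has
large rank: if `P` is the product of the minimal polynomials of Weil numbers `π i` in CM fields `K i`
and `8 D_i < [K i : ℚ]` for all `i`, where `D_i` (`defectAt`) is the rank of the lattice of the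
multiplicative relations between the eigenvalues up to roots of unity (modulo the trivial ones),
restricted to the conjugates of `π i`. If `P` is irreducible, this says that the rank of the Frobenius
torus is greater than `3 g / 4 + 1`, `g = dim A`. There is no condition on Galois groups or slopes.

Suppose that the eigenvalues on `H(Z)` are unrelated to those on `H_1(A)` (`AreUnrelated`): a product
of roots of `P` and a number `q ^ c β`, `β` a root of `Q`, have a common power only if the product is up
to a root of unity a power of the square root of `q`. For instance, if the splitting fields of `P` and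
`Q` intersect in a totally real field: then some automorphism `τ` of the complex numbers is the
identity on the roots of `Q` and complex conjugation on the roots of `P`.

**Theorem.** Let all nonzero symmetric Tate forms on `H_1(A)` have rank greater than `4 m`
(this is no condition if `A` has no factor of type IV in the classification of Albert; for a
simple abelian variety of dimension `g` whose algebra of endomorphisms is a CM field of degree `2 e` it
says that `2 m < g / e`). Then for all `n` and all `r ≤ 2 m`, all Tate classes in
`H^r(A ^ n) ⊗ H(Z)`, in any twist, are zero if `r` is odd, and linear combinations of products of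
divisor classes on `A ^ n` (theorem of Faltings) and of Tate classes on `Z` if `r` is even. If the Rosati
involution of `A` is trivial (for example if `End (A) = ℤ`, or all simple factors are of type I), this
holds for all `r`: so the Tate conjecture for `A ^ n × Z` follows from the Tate conjecture for `Z`.

Nothing is assumed about the Galois representation `H(Z)` (not even that it is semisimple), about its
monodromy group or about the monodromy group of `A`; the only deep theorem which enters is the
semisimplicity theorem of Faltings for `H_1(A)`.

The proof. Let `f : V^r → W` be a Tate class, `V = H_1(A)`, `W = H(Z)`. The linear forms on `W` give a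
space `U` of multilinear forms on `V`, stable under a subgroup of finite index, and a power of the
Frobenius element acts on `U` by a scalar `λ` with `λ^2 = q^(r N)` (the eigenvalues are unrelated). The
elements of the group which act on all conjugates of `U` by such scalars form a normal subgroup; the
endomorphisms of `V` which kill all forms of this kind are a Lie algebra which is stable under
conjugation by the group, and contains the logarithm of the Frobenius element (with arbitrary additive
functions in place of the logarithm). By the condition on four eigenvalues it contains, after extension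
of the field, a Cartan subalgebra of a product of symplectic and special linear Lie algebras which has
the same commutant as the group, and so it contains this product. So the forms in `U` are combinations of
products of Tate forms of degree two, by the first fundamental theorems of invariant theory, and a
subgroup of finite index acts on them, and so on the values of `f`, by the power `m'` of the cyclotomic
character.

In the Lean statement `V` is the rational Tate module of `A` with the action `ρ` of the Galois group `Γ`
and the Weil pairing `ω` of a polarization (`IsTateModule`; this contains the semisimplicity theorem of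
Faltings), `W` is the cohomology of `Z` (or any other Galois module) with the action `σ`, `χ` is the
cyclotomic character and `γ` the Frobenius element.
-/

set_option autoImplicit false

namespace Pool.Agent.Results.MP_021685_ag.SmallDefectTimesVariety

open NumberField Module Pool.Agent.H204R3.GP Pool.Agent.W516.FT Pool.Agent.TH776.FM
  Pool.Agent.TH776.FL Pool.Agent.Q43.TV

/-- **The Tate classes on `A ^ n × Z` from one Frobenius torus of large rank of `A`.** -/
theorem result :
    -- Tate classes on the products
    (∀ (ℓ q : ℕ) [Fact ℓ.Prime] (V W Γ : Type) [AddCommGroup V] [Module ℚ_[ℓ] V]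
      [FiniteDimensional ℚ_[ℓ] V] [AddCommGroup W] [Module ℚ_[ℓ] W] [FiniteDimensional ℚ_[ℓ] W]
      [Group Γ] (ρ : Representation ℚ_[ℓ] Γ V) (σ : Representation ℚ_[ℓ] Γ W) (χ : Γ →* ℚ_[ℓ])
      (ω : V →ₗ[ℚ_[ℓ]] V →ₗ[ℚ_[ℓ]] ℚ_[ℓ]), IsTateModule ρ χ ω →
      ∀ (γ : Γ) (P Q : Polynomial ℚ), χ γ = q →
      (ρ γ).charpoly = P.map (algebraMap ℚ ℚ_[ℓ]) →
      (σ γ).charpoly = Q.map (algebraMap ℚ ℚ_[ℓ]) →
      P.Separable → OnlyTrivialRelationsOfLengthFour P q → AreUnrelated P Q q →
      (∀ m : ℕ, SymmetricTateFormsHaveRankGreaterThan ρ χ (4 * m) → TateClassesUpTo ρ σ χ m) ∧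
      (RosatiTrivial ρ ω → ∀ m : ℕ, TateClassesUpTo ρ σ χ m)) ∧
    -- the condition on the eigenvalues on the abelian variety
    (∀ (q : ℕ) (I : Type) [Fintype I] (K : I → Type) [∀ i, Field (K i)] [∀ i, NumberField (K i)]
      [∀ i, IsCMField (K i)] (π : ∀ i, K i), 0 < q →
      (∀ i, ∀ φ : K i →+* ℂ, ‖φ (π i)‖ ^ 2 = (q : ℝ)) →
      (∀ i, 8 * Pool.Agent.Q43.FS.defectAt K π i < finrank ℚ (K i)) →
      (∏ i, minpoly ℚ (π i)).Separable ∧
        OnlyTrivialRelationsOfLengthFour (∏ i, minpoly ℚ (π i)) q) ∧
    -- a criterion for unrelated eigenvalues
    ∀ (q : ℕ) (P Q : Polynomial ℚ), (∀ a ∈ P.rootSet ℂ, ‖a‖ ^ 2 = (q : ℝ)) →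
      (∃ τ : ℂ ≃+* ℂ, (∀ β ∈ Q.rootSet ℂ, τ β = β) ∧
        ∀ a ∈ P.rootSet ℂ, τ a = starRingEnd ℂ a) → AreUnrelated P Q q := by
  refine ⟨?_, ?_, ?_⟩
  · intro ℓ q _ V W Γ _ _ _ _ _ _ _ ρ σ χ ω hA γ P Q hχ hγ hQ hP h4 hu
    have hss' : ∀ Δ : Subgroup Γ, Δ.FiniteIndex → SemiUnder (ρ '' (Δ : Set Γ)) := by
      intro Δ hΔ U hU
      obtain ⟨U', h1, h2⟩ := hA.semisimple Δ hΔ U (fun s hs u hu => hU _ ⟨s, hs, rfl⟩ u hu)
      refine ⟨U', ?_, h2⟩
      rintro _ ⟨s, hs, rfl⟩ u hu
      exact h1 s hs u hu
    have key : ∀ m : ℕ, SymmetricTateFormsHaveRankGreaterThan ρ χ (4 * m) →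
        TateClassesUpTo ρ σ χ m := fun m hsym => tate_up_to ρ σ χ ω hA.alt hA.nondeg
      hA.similitude hss' γ hχ hP hγ h4 hQ hu hsym
    exact ⟨key, fun hR m => key m (symmetric_zero hA hR _)⟩
  · intro q I _ K _ _ _ π hq hweil hD
    have hq' : (0 : ℚ) < (q : ℚ) := Nat.cast_pos.2 hq
    have hweil' : ∀ i, ∀ φ : K i →+* ℂ, ‖φ (π i)‖ ^ 2 = (((q : ℚ) : ℝ)) := by
      intro i φ
      rw [hweil]
      norm_cast
    have hsf := Pool.Agent.Q43.FS.shortFree_local K hq' π hweil' (k := 4) (fun i => by
      have h1 := hD i
      omega)
    exact ⟨Pool.Agent.Q43.RP.charpoly_separable K π hweil' (by norm_num) hsf,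
      Pool.Agent.Q43.RP.four_of_free K hq π hweil le_rfl hsf⟩
  · rintro q P Q hP ⟨τ, hτ1, hτ2⟩ r a β ha hβ c M hM h
    refine ⟨M, hM, ?_⟩
    have h1 : ∏ l, (a l * starRingEnd ℂ (a l)) = (q : ℂ) ^ r := by
      rw [Finset.prod_congr rfl (fun l _ => by
        rw [Complex.mul_conj, Complex.normSq_eq_norm_sq, hP _ (ha l)] :
        ∀ l ∈ Finset.univ, a l * starRingEnd ℂ (a l) = (((q : ℕ) : ℝ) : ℂ)), Finset.prod_const,
        Finset.card_univ, Fintype.card_fin]
      norm_cast
    have h2 : (∏ l, starRingEnd ℂ (a l)) ^ M = (∏ l, a l) ^ M := by
      have h3 := congrArg τ h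
      rw [map_pow, map_prod, map_pow, map_mul, map_pow, map_natCast, hτ1 _ hβ] at h3
      rw [h, ← h3]
      congr 1
      exact Finset.prod_congr rfl fun l _ => (hτ2 _ (ha l)).symm
    rw [mul_comm 2 M, pow_mul, sq, pow_mul]
    rw [← h1, Finset.prod_mul_distrib, mul_pow, h2]

end Pool.Agent.Results.MP_021685_ag.SmallDefectTimesVariety
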