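import Mathlib
import Pool.Agent.Q29.TE.Law3
import Pool.Agent.Q29.BX.Rows
import Pool.Agent.Q29.DP.RowsCT
import Pool.Agent.Y1.CT.CodimNum
import Pool.Agent.TH170.FT.Tate

/-!
# The Tate conjecture over number fields and over finite fields for almost all slope types of
typical CM fields

Let `K i` (`i` in a finite set) be CM fields of degree `2 g i` which are pairwise independent: for
`i ≠ k` and all complex embeddings `φ` of `K i` and `ψ` of `K k` some automorphism of `ℂ` is the
identity on `φ (K i)` and the complex conjugation on `ψ (K k)` (this is no condition if there is
only one field).

We fix an isomorphism `ν` of the algebraic closure of `ℚ_p` with `ℂ`; it defines a `p`-adic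
valuation of `ℂ`, with the value one at `p`. Let `M i` be a function with integral values on the
complex embeddings of `K i`, invariant under complex conjugation (the weights). A CM type `Φ i` of
`K i` (a choice of one element out of each complex conjugate pair of embeddings), `M i` and a real
number `κ ≠ 0` prescribe the slopes `(a + κ M) / 2` (at the embeddings in `Φ i`) and `(a - κ M) / 2`
(outside of `Φ i`) of a Weil number for `p ^ a` in `K i`. If `p` splits completely in `K i` then, by
Honda and Tate, all rational slopes between `0` and `a` that are symmetric in this way occur for
abelian varieties over finite fields. The case `M = 1`, `κ = a` is the ordinary case.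

**The property of the slope types** has two parts. For a family of types `Φ i` let `π i` be Weil
numbers for `q = p ^ a` that generate the fields `K i` and have the slope types `Φ i`, `M i`.

(1) *Number fields* (the first part of `Q`). Let `A` be an abelian variety over a number field, of any
dimension and with arbitrary endomorphisms, which has good reduction at some place `v` with a
residue field of `q` elements. Suppose that the characteristic polynomial of the Frobenius element
at this **one** place is the product of the minimal polynomials of the `π i` (`HasFrobenius`); so
`dim A = ∑ i, g i`. Then for all prime numbers `ℓ` and all `n` and `m`, each Tate class in `H^{2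
m}(A^n, ℚ_ℓ (m))` lies in the `ℚ_ℓ`-linear span of the classes of algebraic cycles. So **the Tate
conjecture holds for all powers of `A`**, over all finite extensions. In the formal statement
(starting files) `V` is the rational Tate module with the action `ρ` of the Galois group and the
Weil pairing `ω` of a polarization (`IsTateModule`; with the semisimplicity theorem of Faltings),
`χ` is the cyclotomic character. The cohomology of `A ^ n` consists of the alternating forms on `V ^
n`; a Tate class is a form that is fixed by a subgroup of finite index of the Galois group. The
classes of cycles of codimension `m` are given by a set `C n m`; what is used is that the Tate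
classes of degree two are combinations of classes of divisors (Faltings) and that intersections of
divisors are algebraic cycles (`IsCycleClasses`).

(2) *Finite fields* (`TateTimes`). Let `f i` be monic polynomials whose complex roots are conjugates
of `π i` (`IsPolyOf`), for instance the characteristic polynomials of Frobenius of the abelian
varieties in the isogeny classes of the `π i` over the field with `q` elements. Let `A` be an
abelian variety over the field with `Q = q ^ s` elements which is isogenous to a product of powers
of abelian varieties coming from the field with `q` elements, with characteristic polynomials `f i`,
and let `Z` be **any** smooth projective variety over the field with `Q` elements such that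

* the eigenvalues `ρ` of Frobenius on the cohomology of `Z` and their conjugates are unrelated to
  the fields `K i` (`AreUnrelated`): a rational function on the complex embeddings of `K i` which
  changes its sign under complex conjugation and is invariant under all automorphisms of `ℂ` that
  fix a power of `ρ` is zero. This is so if for each complex embedding `ψ` of `K i` there is an
  automorphism of `ℂ` which fixes a power of `ρ` and is the complex conjugation on `ψ (K i)`, for
  instance if the eigenvalues have powers in a number field which contains no CM field that embeds
  into the normal closure of some `K i` (a totally real field, a field linearly disjoint from the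
  normal closures of the `K i`).

Then for all `c` **the Tate conjecture holds for `A × Z` in codimension `c` if and only if it holds
for `Z` in the codimensions `c - i` with `0 ≤ i ≤ dim A`**, and the same for the Tate conjecture
together with the semisimplicity of the eigenvalue `Q ^ c`. All `s` are allowed, so this holds
simultaneously over all finite extensions; if `Z` is a point it is the Tate conjecture for `A`. The
cohomology is any Weil cohomology with coefficients in an algebraically closed field, for instance
the `ℓ`-adic cohomology with coefficients extended to an algebraic closure of `ℚ_ℓ`. The framework
(`TheoryData`, `IsChow`, `IsWeil`) is the one of the starting files: the Chow groups `C` with their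
pull-backs, push-forwards and products, and a Weil cohomology theory `H`, on a class `𝒱` of smooth
proper varieties over `k`.

**The theorem.** Let `E` be a CM field of degree `2 g`, and let all values of the weights `M` divide
the number `n`.

* (`MostTypes`) For all `n` and `ε > 0` there is a number `u` such that the property `Q` is false
  for at most **a proportion of `max (ε, 0.68 q / g)` of the `2 ^ g` types** of `E`, if `g ≥ u`, the
  normal subfields of `E` are small (`SmallNormal`: `g` is odd, or all smooth parts of `g` are
  small, that is, a divisor of `g` with all prime factors at most `y` is at most `√(g y ^ 3) / (1 +
  log g) ^ 3`, for all `y ≥ 2`, for instance if `g` is large and has a prime factor larger than `√g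
  (1 + log g) ^ 3`, but also if `g = 4 p ^ 2` with a large prime number `p`; or the subfields of `E`
  that are normal over `ℚ` are contained in a subfield of degree at most `√g / (1 + log g) ^ 2`),
  and `q ≤ g` is at least the part of `g` composed of the primes 2 and 3 (or at least twice the
  number of the CM subfields of `E` of degree 4 or 6; `SmallPart`). In particular the property is
  true for almost all types of **all CM fields of degree `2 g` with `g` odd and prime to `3`**,
  without any condition on the Galois group or on the subfields; for at least 86 percent of all
  types if `g` is odd and not a power of 3; and for at least 32 percent of all types of all fields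
  with small normal subfields (take `q = g`).
* (`OddDegrees`) For **all CM fields of degree `2 g` with `g` odd**, `g ≥ u (n)`, without any
  condition on the Galois group or the subfields, it is true for **at least one half of all types**,
  and if all weights are one then for **at least two thirds of all types**.
* (`AllFields`) For **every CM field** `E`, of any degree `2 g`, without any condition on the Galois
  group or the subfields, and every `m`, the property is true for **all but a proportion of `g / (m
  + 1)` of all slope functions with denominator `m`**: they are `a (1 + D / m) / 2` with one of the
  `(m + 1) ^ g` functions `D` with `D φ̄ = - D φ`, `|D φ| ≤ m` and `D φ` congruent to `m` modulo 2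
  (`Box`); the weights are `M = |D|`, and `D ≥ 0` on the type.
* (`AlmostAllTypes`, `AlmostAllDegrees`) Let `q ^ k ≤ g` for all `q` with `q ^ 2 ∣ g`. Then for all
  CM fields of degree `2 g` it is false for at most `2 ^ g * C * n ^ 2 * g ^ (6 / k - 1/4 + ε)`
  types, `C = C (k, ε)`. At most `4 x ^ (1 - 1/k)` of the numbers `g ≤ x` do not have this property
  (`k ≥ 2`).

All this is proved more generally for finitely many pairwise independent fields `K i`; the
proportions of the types with the property are then multiplied (in the third
and the fourth part the bounds for the exceptions are added).

**What was known.** The starting files prove that almost all types of a CM field have no relations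
if it has few CM subfields, and this for all CM fields of degree `2 g` if `g` has a prime factor
larger than `g ^ (1 / 2 + δ)`. For the fields with many CM subfields of the other degrees (examples
are `g = p q` with two nearly equal prime numbers, and `g = p ^ k`) this was open; for the degrees
`2 r ^ k`, `r` prime, a theorem of this team gives the property for at least one half of all types,
by congruences (it is used here for `r = 3`). Some condition is necessary: if `E` is multiquadratic
and `M = 1` then nearly one half of all types is degenerate (`Pool.Agent.Q29.DP.multiquadratic`).

**The relations with the eigenvalues of `Z`** (starting files). Suppose that the product of `ρ` and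
of some eigenvalues `φ (π i)` of `A`, no two of them complex conjugate, is a power of `q`, up to a
root of unity. For an automorphism `σ` of `ℂ` the `p`-adic valuations of the images under `σ` give a
linear relation between the signed weights `± M i (σ φ)` whose right side is a function of the
valuation of `σ ρ`. It does not change if `σ` is multiplied by an automorphism `τ` which fixes a
power of `ρ`. The difference of the two relations is homogeneous; if there are no homogeneous
relations then it is trivial, so that the exponents are invariant under all `τ` which fix a power of
`ρ`; as they change their sign under complex conjugation they are zero. Hence only the eigenvalues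
`Q ^ j` of `A`, which belong to products of divisor classes, contribute.

**The proof** that there are no homogeneous relations between the signed weights `e = ± M` of the
types, `∑ n φ * e (σ φ) = 0` for all automorphisms `σ` of `ℂ`, with `n φ̄ = - n φ`, `n ≠ 0`: it
remains to estimate the number of the degenerate types: those for which `e` is orthogonal to a
minimal Galois-stable space `S` of antisymmetric functions on the set of the complex embeddings of
`E`. Let `G` be the Galois group of the normal closure and `H` the stabilizer of an embedding, `K`
the kernel of the action of `G` on `S` and `F` the field of `H K`; so `S` comes from `F` and is a
faithful representation of the Galois group `G / K` of the normal closure of `F`. Let `c = e + d -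
h` where `d` and `h` are the dimensions of `S` and of the part of `S` fixed by `H`, and `e` is the
dimension of the algebra of the endomorphisms of `S`. The spaces isomorphic to `S` form a component.

(A) The sum of `h d / e` over all components is at most `g`. A component with `c ≥ 3` contributes at
most `2 ^ g C n ^ 4 (h d / (e g)) (log g) ^ 21 / √g`; so these components together contribute
little. For this the size of `F` must be eliminated from the estimate of the starting files; this is
done with their inequality for small denominators and for groups of order `g ^ (log g)`.

(B) The components with `c = 2` and dimension `d ≥ 3`: those with `d ≥ D` contribute at most `2 ^ g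
64 log (4 D) / D` together. If `3 ≤ d < D` then by Minkowski `F` has bounded degree, and each
contributes `2 ^ g o (1 / g)`; this is the new analytic step. Let `p` be a prime number of the size
of a large multiple of `√g`. The spaces isomorphic to `S` have at most `2 ^ e p ^ (h - e)`
reductions `R` modulo `p`, and by Fourier analysis modulo `p` the number of the types orthogonal to
`R` is at most `2 ^ g p ^ (-d)` times the sum over the functions `u` in `R` of a product of cosines,
which is at most a Gaussian function of `u`. A short `u ≠ 0` generates `R` (short integral functions
which are independent over `ℚ` are independent modulo `p`, by Gram determinants); so the sum over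
all `R` of the sums over the `u ≠ 0` is at most one Gaussian sum, hence bounded, and altogether
there are at most `2 ^ g (2 ^ e p ^ (-2) + O (p ^ (-d)))` types.

(C) `c = d = 2`: then `F` has degree 4 or 6, there are at most as many of these components as CM
subfields of degree 4 or 6, and at most half of the part of `g` composed of 2 and 3; each
contributes at most `2 ^ g 1.351 / g`, by the theorem of Erdos on sums of weights with signs,
applied twice. If `g` is a power of 3, and for `OddDegrees`, these components are excluded by a
congruence modulo 3: the lattice of the relations contains a function that is invariant modulo 3
under a Sylow 3-subgroup, which has two orbits on the embeddings.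

(D) `c = 1`: then `F` is normal over `ℚ`, `d ^ 2 ≤ [F : ℚ] / 2`, and the component contributes at
most `2 ^ g C n (log g) ^ (3/2) √(d / g)`. If `g` is odd then `d = 1` (Frobenius and Schur) and
there is at most one. In general the sum of `d ^ 2` over those with `d < y` is at most the largest
divisor of `g` composed of primes `≤ y`; and over all of them at most the degree of a field which
contains all subfields normal over `ℚ`.

(E) For the bounds with a power saving the number of the components with `c ≤ 2` is estimated by the
number of the classes of cyclic subgroups of `G / L`, `L` the intersection of their kernels, using
the theorem of Sylow; here the order of `G / L` is at most `2 g 2 ^ Ω(2 g)` because `H K / K` has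
order at most two and is not central. Lemmas of this part were proved by helper24, helper38,
helper178, helper204, helper227, helper261 and helper275 of this team.

(G) For (`AllFields`) let `φ i` be the embeddings of a type. The functions `D` with relations are
zeros of the polynomial `det (D (σ j φ i))` of degree `g` in the `g` variables `D (φ i)`, for all
automorphisms `σ j` of `ℂ`; if `σ j` maps `φ j` to `φ 1` then it is not zero, since its value for
the function with the values `1` at `φ 1`, `-1` at its conjugate and `0` elsewhere is the
determinant of the unit matrix. Then the lemma of Schwartz and Zippel gives the bound.
-/

set_option autoImplicit false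

namespace Pool.Agent.Results.MP_021685_ag.TypicalFields

open NumberField Module Pool.Agent.H204R3.CM Pool.Agent.H977R3.CM Pool.Agent.TH170
  Pool.Agent.TH170.FW Pool.Agent.Y1.KN Pool.Agent.Y1.CT Pool.Agent.Q29.TE

open Pool.Agent.H204R3.GP

open Pool.Agent.Q29.DP (of_unrelated notMem_degTypes_of_noRelations)

open Pool.Agent.Q29.BX (AllFields allFields)

/-- The property of the slope types `Φ i` with the weights `M i`: (first part) the Tate conjecture
for all powers of all abelian varieties with a Frobenius element whose characteristic polynomial is
the product of the minimal polynomials of Weil numbers `π i` for `p ^ a` with the slope types `Φ i`,
`M i`, for all prime numbers `ℓ`; and (second part) the reduction of the Tate conjecture over finite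
fields for `A × Z` to the one for `Z`. -/
def Q : TypeProperty := fun p _ ν _ _ K _ _ _ M Φ =>
  (∀ (a : ℕ) (π : ∀ i, K i) (ℓ : ℕ) [Fact ℓ.Prime] (V Γ : Type) [AddCommGroup V] [Module ℚ_[ℓ] V]
    [FiniteDimensional ℚ_[ℓ] V] [Group Γ] (ρ : Representation ℚ_[ℓ] Γ V) (χ : Γ →* ℚ_[ℓ])
    (ω : V →ₗ[ℚ_[ℓ]] V →ₗ[ℚ_[ℓ]] ℚ_[ℓ]) (D : ∀ n : ℕ, Set ((Fin n → V) [⋀^Fin 2]→ₗ[ℚ_[ℓ]] ℚ_[ℓ]))
    (C : ∀ n m : ℕ, Set ((Fin n → V) [⋀^Fin m × Fin 2]→ₗ[ℚ_[ℓ]] ℚ_[ℓ])), 0 < a →
    FT.IsOfType ν a K M Φ π → FT.IsTateModule ρ χ ω → FT.IsCycleClasses ρ χ D C →
      FT.HasFrobenius ρ χ p a π → ∀ (n m : ℕ) (f : (Fin n → V) [⋀^Fin m × Fin 2]→ₗ[ℚ_[ℓ]] ℚ_[ℓ]),
        IsTateClass ρ χ m f → f ∈ Submodule.span ℚ_[ℓ] (C n m)) ∧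
  ForAllTypes ν K M (TateTimes K) Φ

/-- **The Tate conjecture over number fields for all powers of the abelian varieties with one
Frobenius element of the slope type, and over finite fields for the products of all varieties with
the abelian varieties of the slope type, for almost all slope types of typical CM fields.** -/
theorem result : MostTypes Q ∧ OddDegrees Q ∧ AllFields Q ∧ AlmostAllTypes Q ∧
    AlmostAllDegrees := by
  have h1 : WithoutRelations fun _ _ ν _ _ K _ _ _ M Φ => ForAllTypes ν K M (TateTimes K) Φ :=
    of_unrelated (P := fun _ K _ => TateTimes K) fun _ _ _ _ _ _ hQ hR => tateTimes hQ hR
  have h : WithoutRelations Q := by
    intro p _ ν I _ K _ _ _ M Φ hind hMc hΦ hno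
    have hnd : ∀ i, Φ i ∉ degTypes (M i) := fun i => notMem_degTypes_of_noRelations (hno i)
    refine ⟨?_, h1 p ν I K M Φ hind hMc hΦ hno⟩
    exact fun _ _ _ _ _ _ _ _ _ _ _ _ _ _ _ ha hπ hR hC hF n m f hf =>
      FT.tate_of_types hind hMc hΦ hnd ha hπ hR hC hF n m f hf
  exact ⟨mostTypes h, oddDegrees h, allFields h, almostAllTypes h, almostAllDegrees⟩

end Pool.Agent.Results.MP_021685_ag.TypicalFields
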